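import Pool.Agent.H82.KL.Targets

/-!
Multilinear local smoothing, row LEV, first part: from separated points to the integral.
-/

set_option autoImplicit false

namespace Pool.Agent.H48.KL

open MeasureTheory Set
open scoped ENNReal NNReal
open Pool.Agent.H82.KL

/-- the cell of a point of `ℝ^d` -/
noncomputable def k1 {d : ℕ} (x : EE d) : Fin d → ℤ := fun i => ⌊x i⌋

theorem k1_meas {d : ℕ} : Measurable (k1 (d := d)) := by
  refine measurable_pi_lambda _ fun i => ?_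
  have h : Measurable (fun x : EE d => x i) := by fun_prop
  exact Int.measurable_floor.comp h

theorem k1_vol {d : ℕ} (n : Fin d → ℤ) : volume ((k1 (d := d)) ⁻¹' {n}) = 1 := by
  have hset : (k1 (d := d)) ⁻¹' {n} =
      (WithLp.ofLp : EE d → (Fin d → ℝ)) ⁻¹' (Set.pi Set.univ fun i => Ico (n i : ℝ) (n i + 1)) := by
    ext x
    simp only [mem_preimage, mem_singleton_iff, Set.mem_pi, mem_univ, forall_const, mem_Ico]
    constructor
    · intro h i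
      have hi : ⌊x i⌋ = n i := congrFun h i
      have := Int.floor_eq_iff.1 hi
      exact ⟨this.1, this.2⟩
    · intro h
      funext i
      exact Int.floor_eq_iff.2 ⟨(h i).1, (h i).2⟩
  have hmp : MeasurePreserving (WithLp.ofLp : EE d → (Fin d → ℝ)) volume volume :=
    PiLp.volume_preserving_ofLp (Fin d)
  rw [hset, hmp.measure_preimage (MeasurableSet.univ_pi fun i => measurableSet_Ico).nullMeasurableSet,
    Real.volume_pi_Ico]
  simp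

theorem lint_k1 {d : ℕ} (G : (Fin d → ℤ) → ℝ≥0∞) :
    ∫⁻ x : EE d, G (k1 x) = ∑' n, G n := by
  have hG : Measurable G := Measurable.of_discrete
  rw [← lintegral_map hG k1_meas, lintegral_countable']
  refine tsum_congr fun n => ?_
  rw [Measure.map_apply k1_meas (measurableSet_singleton n), k1_vol, mul_one]

theorem lint_floor (G : ℤ → ℝ≥0∞) (s : Set ℝ) :
    ∫⁻ t in s, G ⌊t⌋ ≤ ∑' m, G m := by
  have hG : Measurable G := Measurable.of_discrete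
  calc ∫⁻ t in s, G ⌊t⌋ ≤ ∫⁻ t : ℝ, G ⌊t⌋ := setLIntegral_le_lintegral _ _
    _ = ∫⁻ m, G m ∂(Measure.map (fun t : ℝ => ⌊t⌋) volume) :=
        (lintegral_map hG Int.measurable_floor).symm
    _ = ∑' m, G m := by
        rw [lintegral_countable']
        refine tsum_congr fun m => ?_
        rw [Measure.map_apply Int.measurable_floor (measurableSet_singleton m)]
        have : (fun t : ℝ => ⌊t⌋) ⁻¹' {m} = Ico (m : ℝ) (m + 1) := by
          ext t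
          simp only [mem_preimage, mem_singleton_iff, mem_Ico]
          exact Int.floor_eq_iff
        rw [this, Real.volume_Ico]
        simp

/-- the supremum over a cell -/
noncomputable def Sq {d : ℕ} (R : ℝ) (F : EE d × ℝ → ℝ≥0∞) (q : ℤ × (Fin d → ℤ)) : ℝ≥0∞ :=
  ⨆ z : {z : EE d × ℝ // k1 z.1 = q.2 ∧ ⌊z.2⌋ = q.1 ∧ R ≤ z.2 ∧ z.2 ≤ 2 * R}, F z.1

theorem le_Sq {d : ℕ} (R : ℝ) (F : EE d × ℝ → ℝ≥0∞) (x : EE d) (t : ℝ) (ht : t ∈ Icc R (2 * R)) :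
    F (x, t) ≤ Sq R F (⌊t⌋, k1 x) :=
  le_iSup (fun z : {z : EE d × ℝ // k1 z.1 = (⌊t⌋, k1 x).2 ∧ ⌊z.2⌋ = (⌊t⌋, k1 x).1 ∧ R ≤ z.2 ∧
    z.2 ≤ 2 * R} => F z.1) ⟨(x, t), rfl, rfl, ht.1, ht.2⟩

theorem int_le_tsum {d : ℕ} (R : ℝ) (F : EE d × ℝ → ℝ≥0∞) :
    ∫⁻ t in Icc R (2 * R), ∫⁻ x : EE d, F (x, t) ≤ ∑' q, Sq R F q := by
  calc ∫⁻ t in Icc R (2 * R), ∫⁻ x : EE d, F (x, t)
      ≤ ∫⁻ t in Icc R (2 * R), ∫⁻ x : EE d, Sq R F (⌊t⌋, k1 x) := by
        refine setLIntegral_mono' measurableSet_Icc fun t ht => lintegral_mono fun x => ?_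
        exact le_Sq R F x t ht
    _ = ∫⁻ t in Icc R (2 * R), ∑' n, Sq R F (⌊t⌋, n) := by
        refine lintegral_congr fun t => ?_
        exact lint_k1 (fun n => Sq R F (⌊t⌋, n))
    _ ≤ ∑' m, ∑' n, Sq R F (m, n) :=
        lint_floor (fun m => ∑' n, Sq R F (m, n)) _
    _ = ∑' q, Sq R F q := (ENNReal.tsum_prod (f := fun m n => Sq R F (m, n))).symm

/-- the parity of a cell -/
def par {d : ℕ} (q : ℤ × (Fin d → ℤ)) : ZMod 2 × (Fin d → ZMod 2) :=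
  ((q.1 : ZMod 2), fun i => (q.2 i : ZMod 2))

theorem two_le {m n : ℤ} (h : (m : ZMod 2) = (n : ZMod 2)) (hne : m ≠ n) : 2 ≤ |m - n| := by
  have h1 : (2 : ℤ) ∣ n - m := by
    have := (ZMod.intCast_eq_intCast_iff_dvd_sub m n 2).1 h
    exact_mod_cast this
  obtain ⟨c, hc⟩ := h1
  have hc0 : c ≠ 0 := by
    rintro rfl
    apply hne
    omega
  have : m - n = 2 * (-c) := by omega
  rw [this, abs_mul]
  have h2 : 1 ≤ |(-c)| := Int.one_le_abs (by omega)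
  have h3 : |(2 : ℤ)| = 2 := rfl
  rw [h3]
  omega

theorem one_le_floor {x y : ℝ} (h : 2 ≤ |⌊x⌋ - ⌊y⌋|) : 1 ≤ |x - y| := by
  have hx1 := Int.floor_le x
  have hx2 := Int.lt_floor_add_one x
  have hy1 := Int.floor_le y
  have hy2 := Int.lt_floor_add_one y
  rcases le_abs.1 h with h' | h'
  · have : (2 : ℝ) ≤ (⌊x⌋ : ℝ) - ⌊y⌋ := by exact_mod_cast h'
    refine le_abs.2 (Or.inl ?_)
    linarith
  · have : (2 : ℝ) ≤ -((⌊x⌋ : ℝ) - ⌊y⌋) := by exact_mod_cast h'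
    refine le_abs.2 (Or.inr ?_)
    linarith

theorem cell_sep {d : ℕ} (z z' : EE d × ℝ)
    (hp : par (⌊z.2⌋, k1 z.1) = par (⌊z'.2⌋, k1 z'.1))
    (hne : (⌊z.2⌋, k1 z.1) ≠ (⌊z'.2⌋, k1 z'.1)) : 1 ≤ dist z z' := by
  rw [Prod.dist_eq]
  have hp1 : ((⌊z.2⌋ : ℤ) : ZMod 2) = ((⌊z'.2⌋ : ℤ) : ZMod 2) := congrArg Prod.fst hp
  have hp2 : ∀ i, ((⌊z.1 i⌋ : ℤ) : ZMod 2) = ((⌊z'.1 i⌋ : ℤ) : ZMod 2) := fun i =>
    congrFun (congrArg Prod.snd hp) i
  by_cases h1 : ⌊z.2⌋ = ⌊z'.2⌋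
  · have h2 : ∃ i, ⌊z.1 i⌋ ≠ ⌊z'.1 i⌋ := by
      by_contra hcon
      push Not at hcon
      apply hne
      exact Prod.ext h1 (funext hcon)
    obtain ⟨i, hi⟩ := h2
    have h3 := one_le_floor (two_le (hp2 i) hi)
    refine le_trans h3 (le_trans ?_ (le_max_left _ _))
    rw [dist_eq_norm, ← Real.norm_eq_abs]
    have := PiLp.norm_apply_le (z.1 - z'.1) i
    simpa using this
  · have h3 := one_le_floor (two_le hp1 h1)
    refine le_trans h3 (le_trans ?_ (le_max_right _ _))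
    rw [Real.dist_eq]

theorem sum_par {d : ℕ} (R : ℝ) (F : EE d × ℝ → ℝ≥0∞) (B : ℝ≥0∞) (hB : B ≠ ⊤)
    (hF : ∀ z : EE d × ℝ, R ≤ z.2 → z.2 ≤ 2 * R → F z ≤ B) (M : ℝ≥0∞)
    (hM : ∀ Y : Finset (EE d × ℝ), Sep Y → (∀ z ∈ Y, R ≤ z.2 ∧ z.2 ≤ 2 * R) →
      ∑ z ∈ Y, F z ≤ M)
    (s : Finset (ℤ × (Fin d → ℤ))) (π : ZMod 2 × (Fin d → ZMod 2)) (hs : ∀ q ∈ s, par q = π) :
    ∑ q ∈ s, Sq R F q ≤ 2 * M := by
  classical
  have hSB : ∀ q, Sq R F q ≠ ⊤ := fun q =>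
    ne_top_of_le_ne_top hB (iSup_le fun z => hF z.1 z.2.2.2.1 z.2.2.2.2)
  have hz : ∀ q, Sq R F q ≠ 0 → ∃ z : EE d × ℝ, k1 z.1 = q.2 ∧ ⌊z.2⌋ = q.1 ∧ R ≤ z.2 ∧
      z.2 ≤ 2 * R ∧ Sq R F q ≤ 2 * F z := by
    intro q hq
    have h1 : Sq R F q / 2 < Sq R F q := ENNReal.half_lt_self hq (hSB q)
    obtain ⟨z, hz⟩ := lt_iSup_iff.1 h1
    refine ⟨z.1, z.2.1, z.2.2.1, z.2.2.2.1, z.2.2.2.2, ?_⟩
    have h2 : Sq R F q / 2 ≤ F z.1 := hz.le
    have h3 := (ENNReal.div_le_iff (by norm_num) (by norm_num)).1 h2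
    rw [mul_comm] at h3
    exact h3
  choose! g hg using hz
  have hsum : ∑ q ∈ s, Sq R F q = ∑ q ∈ s.filter (fun q => Sq R F q ≠ 0), Sq R F q := by
    rw [Finset.sum_filter_ne_zero]
  have hinj : Set.InjOn g (s.filter (fun q => Sq R F q ≠ 0)) := by
    intro q hq q' hq' h
    have h1 := hg q (Finset.mem_filter.1 hq).2
    have h2 := hg q' (Finset.mem_filter.1 hq').2
    refine Prod.ext ?_ ?_
    · rw [← h1.2.1, ← h2.2.1, h]
    · rw [← h1.1, ← h2.1, h]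
  calc ∑ q ∈ s, Sq R F q = ∑ q ∈ s.filter (fun q => Sq R F q ≠ 0), Sq R F q := hsum
    _ ≤ ∑ q ∈ s.filter (fun q => Sq R F q ≠ 0), 2 * F (g q) :=
        Finset.sum_le_sum fun q hq => (hg q (Finset.mem_filter.1 hq).2).2.2.2.2
    _ = 2 * ∑ q ∈ s.filter (fun q => Sq R F q ≠ 0), F (g q) := by rw [Finset.mul_sum]
    _ = 2 * ∑ z ∈ (s.filter (fun q => Sq R F q ≠ 0)).image g, F z := by
        rw [Finset.sum_image hinj]
    _ ≤ 2 * M := by
        refine mul_le_mul_right (hM _ ?_ ?_) 2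
        · intro z hz z' hz' hne
          obtain ⟨q, hq, rfl⟩ := Finset.mem_image.1 hz
          obtain ⟨q', hq', rfl⟩ := Finset.mem_image.1 hz'
          have h1 := hg q (Finset.mem_filter.1 hq).2
          have h2 := hg q' (Finset.mem_filter.1 hq').2
          have e1 : (⌊(g q).2⌋, k1 (g q).1) = q := Prod.ext h1.2.1 h1.1
          have e2 : (⌊(g q').2⌋, k1 (g q').1) = q' := Prod.ext h2.2.1 h2.1
          refine cell_sep _ _ ?_ ?_
          · rw [e1, e2, hs q (Finset.mem_filter.1 hq).1, hs q' (Finset.mem_filter.1 hq').1]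
          · rw [e1, e2]
            rintro rfl
            exact hne rfl
        · intro z hz
          obtain ⟨q, hq, rfl⟩ := Finset.mem_image.1 hz
          have h1 := hg q (Finset.mem_filter.1 hq).2
          exact ⟨h1.2.2.1, h1.2.2.2.1⟩

/-- from separated points to the integral -/
theorem cells {d : ℕ} (R : ℝ) (F : EE d × ℝ → ℝ≥0∞) (B : ℝ≥0∞) (hB : B ≠ ⊤)
    (hF : ∀ z : EE d × ℝ, R ≤ z.2 → z.2 ≤ 2 * R → F z ≤ B) (M : ℝ≥0∞)
    (hM : ∀ Y : Finset (EE d × ℝ), Sep Y → (∀ z ∈ Y, R ≤ z.2 ∧ z.2 ≤ 2 * R) →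
      ∑ z ∈ Y, F z ≤ M) :
    ∫⁻ t in Icc R (2 * R), ∫⁻ x : EE d, F (x, t) ≤
      ((Fintype.card (ZMod 2 × (Fin d → ZMod 2)) : ℕ) : ℝ≥0∞) * (2 * M) := by
  classical
  refine le_trans (int_le_tsum R F) ?_
  rw [ENNReal.tsum_eq_iSup_sum]
  refine iSup_le fun s => ?_
  rw [← Finset.sum_fiberwise s par (Sq R F)]
  calc ∑ π, ∑ q ∈ s.filter (fun q => par q = π), Sq R F q
      ≤ ∑ _π : ZMod 2 × (Fin d → ZMod 2), 2 * M := by
        refine Finset.sum_le_sum fun π _ => ?_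
        exact sum_par R F B hB hF M hM _ π fun q hq => (Finset.mem_filter.1 hq).2
    _ = _ := by
        rw [Finset.sum_const, Finset.card_univ, nsmul_eq_mul]

end Pool.Agent.H48.KL
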