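import Pool.Agent.H48.KL.PCS

/-!
Multilinear local smoothing, row LEV, third part: the number of points of one level.
-/

set_option autoImplicit false

namespace Pool.Agent.H48.KL

open MeasureTheory Set
open scoped ENNReal NNReal
open Pool.Agent.H82.KL

/-- the number of points of one level -/
theorem level (h4 : T_GRAM) (d k n : ℕ) (hn : 1 ≤ n) (L ε₁ : ℝ) (a : Fin k → EE d → ℂ)
    (ha : ∀ j, Sym (a j)) (C1 : ℝ) (C2 C3 : ℝ≥0)
    (R : ℝ) (hR : 1 ≤ R)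
    (hs : ∀ (N : ℝ) (f : EE d → ℂ) (z : EE d × ℝ) (j : Fin k), R ≤ z.2 → z.2 ≤ 2 * R →
      Measurable f → (∀ y, ‖f y‖ ≤ N) → ‖W (a j) f z‖ ≤ C1 * N * R ^ (((d : ℝ) - 1) / 2))
    (hl : ∀ (f : EE d → ℂ) (Y : Finset (EE d × ℝ)) (j : Fin k), Measurable f → Sep Y →
      (∀ z ∈ Y, R ≤ z.2 ∧ z.2 ≤ 2 * R) →
      ∑ z ∈ Y, ‖W (a j) f z‖ₑ ^ 2 ≤ C2 * ENNReal.ofReal (R ^ ((d : ℝ) + 2)) * ∫⁻ y, ‖f y‖ₑ ^ 2)
    (hg : ∀ (h : ℝ) (N : Fin k → ℝ) (f : Fin k → EE d → ℂ) (Y : Finset (EE d × ℝ)),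
      0 < h → (∀ j, Measurable (f j)) → (∀ j y, ‖f j y‖ ≤ N j) → Sep Y →
      (∀ z ∈ Y, R ≤ z.2 ∧ z.2 ≤ 2 * R ∧ ∀ j, h ≤ ‖W (a j) (f j) z‖) →
      (∀ j, N j * R ^ (((d : ℝ) - 1) / 2) ≤ (2 * R) ^ L * h) →
      (Y.card : ℝ≥0∞) ≤ C3 * ENNReal.ofReal (R ^ ε₁) * ∑ j,
        ENNReal.ofReal ((N j * R ^ (((d : ℝ) - 1) / 2) / h) ^ (Pk d k - 2) / h ^ 2) *
          ∫⁻ y, ‖f j y‖ₑ ^ 2)
    (c0 : ℝ) (hc0 : 0 < c0) (hc1 : C1 * c0 ≤ 1 / 4)
    (hnL : c0 * 2 ^ n * (2 * n) ≤ (2 * R) ^ L)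
    (f : Fin k → EE d → ℂ) (hf : ∀ j, BM (f j)) (h : ℝ) (hh : 0 < h)
    (Y : Finset (EE d × ℝ)) (hY : Sep Y)
    (hYz : ∀ z ∈ Y, R ≤ z.2 ∧ z.2 ≤ 2 * R ∧ ∀ j, h ≤ ‖W (a j) (f j) z‖) :
    (Y.card : ℝ≥0∞) ≤
      (∑ j, C2 * ENNReal.ofReal (R ^ ((d : ℝ) + 2)) * ENNReal.ofReal (16 / h ^ 2) *
        ∫⁻ y, ‖hi (c0 * 2 ^ n / R ^ (((d : ℝ) - 1) / 2) * h) (f j) y‖ₑ ^ 2) +
      ∑ ι : Fin k → Fin n, C3 * ENNReal.ofReal (R ^ ε₁) * ∑ j,
        ENNReal.ofReal ((c0 * 2 ^ (ι j : ℕ) * 2 * (2 * n)) ^ (Pk d k - 2) * (2 * n) ^ 2 / h ^ 2) *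
        ∫⁻ y, ‖mid (c0 * 2 ^ (ι j : ℕ) / R ^ (((d : ℝ) - 1) / 2) * h)
          (2 * (c0 * 2 ^ (ι j : ℕ) / R ^ (((d : ℝ) - 1) / 2)) * h) (f j) y‖ₑ ^ 2 := by
  classical
  set D : ℝ := R ^ (((d : ℝ) - 1) / 2) with hD
  have hD0 : 0 < D := by positivity
  have hn0 : (0 : ℝ) < n := by
    have : 0 < n := hn
    exact_mod_cast this
  -- the levels
  set τ : ℕ → ℝ := fun i => c0 * 2 ^ i / D * h with hτ
  have hτ0 : ∀ i, 0 < τ i := fun i => by simp only [hτ]; positivity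
  have hτs : ∀ i, τ (i + 1) = 2 * (c0 * 2 ^ i / D) * h := fun i => by
    simp only [hτ, pow_succ]; ring
  have hτm : ∀ i, τ i ≤ τ (i + 1) := fun i => by
    rw [hτs]
    have := hτ0 i
    simp only [hτ] at this ⊢
    linarith
  set Hi : Fin k → Finset (EE d × ℝ) := fun j =>
    Y.filter (fun z => h / 4 ≤ ‖W (a j) (hi (τ n) (f j)) z‖) with hHi
  set Mi : (Fin k → Fin n) → Finset (EE d × ℝ) := fun ι =>
    Y.filter (fun z => ∀ j, h / (2 * n) ≤ ‖W (a j) (mid (τ (ι j)) (τ ((ι j : ℕ) + 1)) (f j)) z‖)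
    with hMi
  have hcov : Y ⊆ (Finset.univ.biUnion Hi) ∪ (Finset.univ.biUnion Mi) := by
    intro z hz
    obtain ⟨hz1, hz2, hz3⟩ := hYz z hz
    by_cases hex : ∃ j, h / 4 ≤ ‖W (a j) (hi (τ n) (f j)) z‖
    · obtain ⟨j, hj⟩ := hex
      refine Finset.mem_union_left _ (Finset.mem_biUnion.2 ⟨j, Finset.mem_univ _, ?_⟩)
      exact Finset.mem_filter.2 ⟨hz, hj⟩
    · refine Finset.mem_union_right _ ?_
      push Not at hex
      have hall : ∀ j, ∃ i : Fin n,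
          h / (2 * n) ≤ ‖W (a j) (mid (τ i) (τ ((i : ℕ) + 1)) (f j)) z‖ := by
        intro j
        have h0 : ‖W (a j) (lo (τ 0) (f j)) z‖ ≤ h / 4 := by
          refine le_trans (hs (τ 0) _ z j hz1 hz2 (lo_meas _ (hf j).1)
            (lo_le _ (hτ0 0).le _)) ?_
          have : C1 * τ 0 * D = C1 * c0 * h := by
            simp only [hτ, pow_zero, mul_one]
            field_simp
          rw [this]
          nlinarith
        rcases pig n hn h hh (fun i => W (a j) (lo (τ i) (f j)) z) (W (a j) (f j) z) (hz3 j) h0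
          with h5 | ⟨i, hi, h5⟩
        · exfalso
          rw [← W_hi h4 (a j) (ha j) (f j) (hf j) (τ n) z] at h5
          exact absurd h5 (not_le.2 (hex j))
        · refine ⟨⟨i, hi⟩, ?_⟩
          rw [W_mid h4 (a j) (ha j) (f j) (hf j) _ _ (hτm i) z]
          exact h5
      choose ι hι using hall
      refine Finset.mem_biUnion.2 ⟨ι, Finset.mem_univ _, ?_⟩
      exact Finset.mem_filter.2 ⟨hz, hι⟩
  have hcard : (Y.card : ℝ≥0∞) ≤ ∑ j, ((Hi j).card : ℝ≥0∞) + ∑ ι, ((Mi ι).card : ℝ≥0∞) := by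
    have h1 : Y.card ≤ ∑ j, (Hi j).card + ∑ ι, (Mi ι).card :=
      calc Y.card ≤ ((Finset.univ.biUnion Hi) ∪ (Finset.univ.biUnion Mi)).card :=
            Finset.card_le_card hcov
        _ ≤ (Finset.univ.biUnion Hi).card + (Finset.univ.biUnion Mi).card :=
            Finset.card_union_le _ _
        _ ≤ _ := add_le_add Finset.card_biUnion_le Finset.card_biUnion_le
    exact_mod_cast h1
  refine le_trans hcard (add_le_add ?_ ?_)
  · -- high part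
    refine Finset.sum_le_sum fun j _ => ?_
    have hsep : Sep (Hi j) := fun z hz z' hz' hne =>
      hY z (Finset.mem_filter.1 hz).1 z' (Finset.mem_filter.1 hz').1 hne
    have h1 := hl (hi (τ n) (f j)) (Hi j) j (hi_meas _ (hf j).1) hsep
      (fun z hz => ⟨(hYz z (Finset.mem_filter.1 hz).1).1, (hYz z (Finset.mem_filter.1 hz).1).2.1⟩)
    have h2 : ((Hi j).card : ℝ≥0∞) * ENNReal.ofReal (h ^ 2 / 16) ≤
        ∑ z ∈ Hi j, ‖W (a j) (hi (τ n) (f j)) z‖ₑ ^ 2 := by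
      rw [← nsmul_eq_mul]
      refine Finset.card_nsmul_le_sum _ _ _ fun z hz => ?_
      have h3 := (Finset.mem_filter.1 hz).2
      rw [← ofReal_norm, ← ENNReal.ofReal_pow (norm_nonneg _)]
      refine ENNReal.ofReal_le_ofReal ?_
      have : h ^ 2 / 16 = (h / 4) ^ 2 := by ring
      rw [this]
      exact pow_le_pow_left₀ (by positivity) h3 2
    have h3 : ENNReal.ofReal (h ^ 2 / 16) * ENNReal.ofReal (16 / h ^ 2) = 1 := by
      rw [← ENNReal.ofReal_mul (by positivity)]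
      have : h ^ 2 / 16 * (16 / h ^ 2) = 1 := by field_simp
      rw [this, ENNReal.ofReal_one]
    calc ((Hi j).card : ℝ≥0∞)
        = ((Hi j).card : ℝ≥0∞) * ENNReal.ofReal (h ^ 2 / 16) * ENNReal.ofReal (16 / h ^ 2) := by
          rw [mul_assoc, h3, mul_one]
      _ ≤ (∑ z ∈ Hi j, ‖W (a j) (hi (τ n) (f j)) z‖ₑ ^ 2) * ENNReal.ofReal (16 / h ^ 2) :=
          mul_le_mul_left h2 _
      _ ≤ (C2 * ENNReal.ofReal (R ^ ((d : ℝ) + 2)) * ∫⁻ y, ‖hi (τ n) (f j) y‖ₑ ^ 2) *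
            ENNReal.ofReal (16 / h ^ 2) := mul_le_mul_left h1 _
      _ = _ := by ring
  · -- middle part
    refine Finset.sum_le_sum fun ι _ => ?_
    have hsep : Sep (Mi ι) := fun z hz z' hz' hne =>
      hY z (Finset.mem_filter.1 hz).1 z' (Finset.mem_filter.1 hz').1 hne
    have h1 := hg (h / (2 * n)) (fun j => τ ((ι j : ℕ) + 1))
      (fun j => mid (τ (ι j)) (τ ((ι j : ℕ) + 1)) (f j)) (Mi ι) (by positivity)
      (fun j => mid_meas _ _ (hf j).1) (fun j y => mid_le _ _ (hτ0 _).le _ y) hsep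
      (fun z hz => ⟨(hYz z (Finset.mem_filter.1 hz).1).1, (hYz z (Finset.mem_filter.1 hz).1).2.1,
        (Finset.mem_filter.1 hz).2⟩)
      (fun j => by
        have e1 : τ ((ι j : ℕ) + 1) * D = c0 * 2 ^ ((ι j : ℕ) + 1) * h := by
          simp only [hτ]
          field_simp
        rw [e1]
        have e2 : c0 * 2 ^ ((ι j : ℕ) + 1) ≤ c0 * 2 ^ n := by
          refine mul_le_mul_of_nonneg_left ?_ hc0.le
          exact pow_le_pow_right₀ (by norm_num) (ι j).2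
        have e3 : c0 * 2 ^ n ≤ (2 * R) ^ L / (2 * n) := by
          rw [le_div_iff₀ (by positivity)]
          exact hnL
        calc c0 * 2 ^ ((ι j : ℕ) + 1) * h ≤ (2 * R) ^ L / (2 * n) * h :=
              mul_le_mul_of_nonneg_right (e2.trans e3) hh.le
          _ = (2 * R) ^ L * (h / (2 * n)) := by ring)
    refine le_trans h1 (mul_le_mul_right (Finset.sum_le_sum fun j _ => ?_) _)
    have e4 : (τ ((ι j : ℕ) + 1) * D / (h / (2 * n))) ^ (Pk d k - 2) / (h / (2 * n)) ^ 2 =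
        (c0 * 2 ^ (ι j : ℕ) * 2 * (2 * n)) ^ (Pk d k - 2) * (2 * n) ^ 2 / h ^ 2 := by
      have e5 : τ ((ι j : ℕ) + 1) * D / (h / (2 * n)) = c0 * 2 ^ (ι j : ℕ) * 2 * (2 * n) := by
        simp only [hτ, pow_succ]
        field_simp
      rw [e5]
      field_simp
    rw [e4, hτs]

end Pool.Agent.H48.KL
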