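import Pool.Agent.H48.KL.CEL
import Pool.Agent.H48.KL.LVL

/-!
Multilinear local smoothing, row LEV: the level set estimate gives the estimate for the integral.
-/

set_option autoImplicit false

namespace Pool.Agent.H48.KL

open MeasureTheory Set
open scoped ENNReal NNReal
open Pool.Agent.H82.KL

theorem key (p X h : ℝ) (hX : 0 ≤ X) (hh : 0 < h) :
    ENNReal.ofReal ((2 * h) ^ p) * ENNReal.ofReal (X / h ^ 2) =
      ENNReal.ofReal (2 ^ p * X) * ENNReal.ofReal (h ^ (p - 2)) := by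
  rw [← ENNReal.ofReal_mul (by positivity), ← ENNReal.ofReal_mul (by positivity)]
  congr 1
  have h1 : h ^ (p - 2) = h ^ p / h ^ 2 := by
    rw [Real.rpow_sub hh]
    norm_num
  rw [h1, Real.mul_rpow (by norm_num) hh.le]
  ring

/-- the discrete form, with all parameters -/
theorem disc (h4 : T_GRAM) (d k n : ℕ) (hk : 0 < k) (hn : 1 ≤ n) (L ε₁ : ℝ)
    (a : Fin k → EE d → ℂ) (ha : ∀ j, Sym (a j)) (C1 : ℝ) (C2 C3 : ℝ≥0)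
    (R : ℝ) (hR : 1 ≤ R)
    (hs : ∀ (N : ℝ) (f : EE d → ℂ) (z : EE d × ℝ) (j : Fin k), R ≤ z.2 → z.2 ≤ 2 * R →
      Measurable f → (∀ y, ‖f y‖ ≤ N) → ‖W (a j) f z‖ ≤ C1 * N * R ^ (((d : ℝ) - 1) / 2))
    (hl : ∀ (f : EE d → ℂ) (Y : Finset (EE d × ℝ)) (j : Fin k), Measurable f → Sep Y →
      (∀ z ∈ Y, R ≤ z.2 ∧ z.2 ≤ 2 * R) →
      ∑ z ∈ Y, ‖W (a j) f z‖ₑ ^ 2 ≤ C2 * ENNReal.ofReal (R ^ ((d : ℝ) + 2)) * ∫⁻ y, ‖f y‖ₑ ^ 2)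
    (hg : ∀ (h : ℝ) (N : Fin k → ℝ) (f : Fin k → EE d → ℂ) (Y : Finset (EE d × ℝ)),
      0 < h → (∀ j, Measurable (f j)) → (∀ j y, ‖f j y‖ ≤ N j) → Sep Y →
      (∀ z ∈ Y, R ≤ z.2 ∧ z.2 ≤ 2 * R ∧ ∀ j, h ≤ ‖W (a j) (f j) z‖) →
      (∀ j, N j * R ^ (((d : ℝ) - 1) / 2) ≤ (2 * R) ^ L * h) →
      (Y.card : ℝ≥0∞) ≤ C3 * ENNReal.ofReal (R ^ ε₁) * ∑ j,
        ENNReal.ofReal ((N j * R ^ (((d : ℝ) - 1) / 2) / h) ^ (Pk d k - 2) / h ^ 2) *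
          ∫⁻ y, ‖f j y‖ₑ ^ 2)
    (c0 : ℝ) (hc0 : 0 < c0) (hc1 : C1 * c0 ≤ 1 / 4)
    (hnL : c0 * 2 ^ n * (2 * n) ≤ (2 * R) ^ L)
    (p : ℝ) (hp : 2 < p) (K : ℝ)
    (hK : ∀ (d : ℕ) (μ : ℝ), 0 < μ → ∀ (f : EE d → ℂ), Measurable f → ∀ (Λ : Finset ℤ),
      ∑ l ∈ Λ, ENNReal.ofReal (((2 : ℝ) ^ l) ^ (p - 2)) *
        ∫⁻ y, ‖hi (μ * (2 : ℝ) ^ l) f y‖ₑ ^ 2 ≤
      ENNReal.ofReal (K * μ ^ (-(p - 2))) * ∫⁻ y, ‖f y‖ₑ ^ p)
    (f : Fin k → EE d → ℂ) (hf : ∀ j, BM (f j))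
    (Y : Finset (EE d × ℝ)) (hY : Sep Y) (hYz : ∀ z ∈ Y, R ≤ z.2 ∧ z.2 ≤ 2 * R) :
    ∑ z ∈ Y, (⨅ j, ‖W (a j) (f j) z‖ₑ) ^ p ≤
      (∑ j, C2 * ENNReal.ofReal (R ^ ((d : ℝ) + 2)) * (ENNReal.ofReal (2 ^ p * 16) *
        (ENNReal.ofReal (K * (c0 * 2 ^ n / R ^ (((d : ℝ) - 1) / 2)) ^ (-(p - 2))) *
          ∫⁻ y, ‖f j y‖ₑ ^ p))) +
      ∑ ι : Fin k → Fin n, C3 * ENNReal.ofReal (R ^ ε₁) * ∑ j,
        ENNReal.ofReal (2 ^ p * ((c0 * 2 ^ (ι j : ℕ) * 2 * (2 * n)) ^ (Pk d k - 2) *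
          (2 * n) ^ 2)) *
        (ENNReal.ofReal ((c0 * 2 ^ (ι j : ℕ) / R ^ (((d : ℝ) - 1) / 2)) ^ (-(p - 2))) *
          ∫⁻ y, ‖f j y‖ₑ ^ p) := by
  classical
  set D : ℝ := R ^ (((d : ℝ) - 1) / 2) with hD
  have hD0 : 0 < D := by positivity
  set G : EE d × ℝ → ℝ≥0∞ := fun z => ⨅ j, ‖W (a j) (f j) z‖ₑ with hG
  have hGle : ∀ z j, G z ≤ ‖W (a j) (f j) z‖ₑ := fun z j => iInf_le _ j
  have hGtop : ∀ z, G z ≠ ⊤ := fun z =>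
    ne_top_of_le_ne_top enorm_ne_top (hGle z ⟨0, hk⟩)
  set φ : EE d × ℝ → ℝ := fun z => (G z).toReal with hφ
  have hGφ : ∀ z, G z = ENNReal.ofReal (φ z) := fun z => (ENNReal.ofReal_toReal (hGtop z)).symm
  have hφle : ∀ z j, φ z ≤ ‖W (a j) (f j) z‖ := by
    intro z j
    have := ENNReal.toReal_mono enorm_ne_top (hGle z j)
    rwa [toReal_enorm] at this
  set Y' : Finset (EE d × ℝ) := Y.filter (fun z => 0 < φ z) with hY'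
  set l : EE d × ℝ → ℤ := fun z => Int.log 2 (φ z) with hl'
  set Λ : Finset ℤ := Y'.image l with hΛ
  have hh : ∀ m : ℤ, (0 : ℝ) < (2 : ℝ) ^ m := fun m => by positivity
  have step1 : ∑ z ∈ Y, (G z) ^ p = ∑ m ∈ Λ, ∑ z ∈ Y'.filter (fun z => l z = m), (G z) ^ p := by
    rw [Finset.sum_fiberwise_of_maps_to (fun z hz => Finset.mem_image_of_mem l hz)]
    symm
    rw [hY']
    refine Finset.sum_filter_of_ne fun z _ hz => ?_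
    by_contra hcon
    apply hz
    have : φ z = 0 := le_antisymm (not_lt.1 hcon) ENNReal.toReal_nonneg
    rw [hGφ, this, ENNReal.ofReal_zero, ENNReal.zero_rpow_of_pos (by linarith)]
  have step2 : ∀ m ∈ Λ, ∑ z ∈ Y'.filter (fun z => l z = m), (G z) ^ p ≤
      ENNReal.ofReal ((2 * (2 : ℝ) ^ m) ^ p) * ((Y'.filter (fun z => l z = m)).card : ℝ≥0∞) := by
    intro m _
    rw [mul_comm, ← nsmul_eq_mul]
    refine Finset.sum_le_card_nsmul _ _ _ fun z hz => ?_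
    have hz1 := (Finset.mem_filter.1 hz).2
    have hz2 := (Finset.mem_filter.1 (Finset.mem_filter.1 hz).1).2
    have h1 : φ z ≤ 2 * (2 : ℝ) ^ m := by
      have := Int.lt_zpow_succ_log_self (b := 2) (by norm_num) (φ z)
      have h2 : φ z < (2 : ℝ) ^ (Int.log 2 (φ z) + 1) := by exact_mod_cast this
      have h3 : Int.log 2 (φ z) = m := hz1
      rw [h3, zpow_add₀ (by norm_num), zpow_one] at h2
      linarith
    rw [hGφ, ENNReal.ofReal_rpow_of_pos hz2]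
    exact ENNReal.ofReal_le_ofReal (Real.rpow_le_rpow hz2.le h1 (by linarith))
  have step3 : ∀ m ∈ Λ, ((Y'.filter (fun z => l z = m)).card : ℝ≥0∞) ≤
      (∑ j, C2 * ENNReal.ofReal (R ^ ((d : ℝ) + 2)) * ENNReal.ofReal (16 / ((2 : ℝ) ^ m) ^ 2) *
        ∫⁻ y, ‖hi (c0 * 2 ^ n / D * (2 : ℝ) ^ m) (f j) y‖ₑ ^ 2) +
      ∑ ι : Fin k → Fin n, C3 * ENNReal.ofReal (R ^ ε₁) * ∑ j,
        ENNReal.ofReal ((c0 * 2 ^ (ι j : ℕ) * 2 * (2 * n)) ^ (Pk d k - 2) * (2 * n) ^ 2 /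
          ((2 : ℝ) ^ m) ^ 2) *
        ∫⁻ y, ‖mid (c0 * 2 ^ (ι j : ℕ) / D * (2 : ℝ) ^ m)
          (2 * (c0 * 2 ^ (ι j : ℕ) / D) * (2 : ℝ) ^ m) (f j) y‖ₑ ^ 2 := by
    intro m _
    refine level h4 d k n hn L ε₁ a ha C1 C2 C3 R hR hs hl hg c0 hc0 hc1 hnL f hf _ (hh m) _ ?_ ?_
    · intro z hz z' hz' hne
      exact hY z (Finset.mem_filter.1 (Finset.mem_filter.1 hz).1).1 z'
        (Finset.mem_filter.1 (Finset.mem_filter.1 hz').1).1 hne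
    · intro z hz
      have hz1 := (Finset.mem_filter.1 hz).2
      have hz2 := (Finset.mem_filter.1 (Finset.mem_filter.1 hz).1).2
      have hz3 := (Finset.mem_filter.1 (Finset.mem_filter.1 hz).1).1
      refine ⟨(hYz z hz3).1, (hYz z hz3).2, fun j => ?_⟩
      have h1 := Int.zpow_log_le_self (b := 2) (by norm_num) hz2
      have h2 : (2 : ℝ) ^ (Int.log 2 (φ z)) ≤ φ z := by exact_mod_cast h1
      have h3 : Int.log 2 (φ z) = m := hz1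
      rw [h3] at h2
      exact h2.trans (hφle z j)
  have step4 : ∑ z ∈ Y, (G z) ^ p ≤ ∑ m ∈ Λ, (
      (∑ j, C2 * ENNReal.ofReal (R ^ ((d : ℝ) + 2)) * (ENNReal.ofReal (2 ^ p * 16) *
        (ENNReal.ofReal (((2 : ℝ) ^ m) ^ (p - 2)) *
        ∫⁻ y, ‖hi (c0 * 2 ^ n / D * (2 : ℝ) ^ m) (f j) y‖ₑ ^ 2))) +
      ∑ ι : Fin k → Fin n, C3 * ENNReal.ofReal (R ^ ε₁) * ∑ j,
        ENNReal.ofReal (2 ^ p * ((c0 * 2 ^ (ι j : ℕ) * 2 * (2 * n)) ^ (Pk d k - 2) *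
          (2 * n) ^ 2)) *
        (ENNReal.ofReal (((2 : ℝ) ^ m) ^ (p - 2)) *
        ∫⁻ y, ‖mid (c0 * 2 ^ (ι j : ℕ) / D * (2 : ℝ) ^ m)
          (2 * (c0 * 2 ^ (ι j : ℕ) / D) * (2 : ℝ) ^ m) (f j) y‖ₑ ^ 2)) := by
    rw [step1]
    refine Finset.sum_le_sum fun m hm => ?_
    refine le_trans (step2 m hm) (le_trans (mul_le_mul_right (step3 m hm) _) (le_of_eq ?_))
    rw [mul_add, Finset.mul_sum, Finset.mul_sum]
    refine congrArg₂ (· + ·) ?_ ?_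
    · refine Finset.sum_congr rfl fun j _ => ?_
      have e1 := key p 16 ((2 : ℝ) ^ m) (by norm_num) (hh m)
      calc _ = C2 * ENNReal.ofReal (R ^ ((d : ℝ) + 2)) *
            (ENNReal.ofReal ((2 * (2 : ℝ) ^ m) ^ p) * ENNReal.ofReal (16 / ((2 : ℝ) ^ m) ^ 2)) *
            ∫⁻ y, ‖hi (c0 * 2 ^ n / D * (2 : ℝ) ^ m) (f j) y‖ₑ ^ 2 := by ring
        _ = _ := by rw [e1]; ring
    · refine Finset.sum_congr rfl fun ι _ => ?_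
      rw [Finset.mul_sum, Finset.mul_sum, Finset.mul_sum]
      refine Finset.sum_congr rfl fun j _ => ?_
      have e1 := key p ((c0 * 2 ^ (ι j : ℕ) * 2 * (2 * n)) ^ (Pk d k - 2) * (2 * n) ^ 2)
        ((2 : ℝ) ^ m) (by positivity) (hh m)
      calc _ = C3 * ENNReal.ofReal (R ^ ε₁) *
            (ENNReal.ofReal ((2 * (2 : ℝ) ^ m) ^ p) * ENNReal.ofReal
              ((c0 * 2 ^ (ι j : ℕ) * 2 * (2 * n)) ^ (Pk d k - 2) * (2 * n) ^ 2 /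
                ((2 : ℝ) ^ m) ^ 2)) *
            ∫⁻ y, ‖mid (c0 * 2 ^ (ι j : ℕ) / D * (2 : ℝ) ^ m)
              (2 * (c0 * 2 ^ (ι j : ℕ) / D) * (2 : ℝ) ^ m) (f j) y‖ₑ ^ 2 := by ring
        _ = _ := by rw [e1]; ring
  refine le_trans step4 ?_
  rw [Finset.sum_add_distrib]
  refine add_le_add ?_ ?_
  · rw [Finset.sum_comm]
    refine Finset.sum_le_sum fun j _ => ?_
    rw [← Finset.mul_sum, ← Finset.mul_sum]
    refine mul_le_mul_right (mul_le_mul_right ?_ _) _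
    exact hK d (c0 * 2 ^ n / D) (by positivity) (f j) (hf j).1 Λ
  · rw [Finset.sum_comm]
    refine Finset.sum_le_sum fun ι _ => ?_
    rw [← Finset.mul_sum]
    refine mul_le_mul_right ?_ _
    rw [Finset.sum_comm]
    refine Finset.sum_le_sum fun j _ => ?_
    rw [← Finset.mul_sum]
    refine mul_le_mul_right ?_ _
    exact sum_mid p (c0 * 2 ^ (ι j : ℕ) / D) hp.le (by positivity) (f j) (hf j).1 Λ

end Pool.Agent.H48.KL
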