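import Pool.Agent.H48.KL.LEV

/-!
Multilinear local smoothing, row LEV: choice of the parameters and conclusion.
-/

set_option autoImplicit false

namespace Pool.Agent.H48.KL

open MeasureTheory Set
open scoped ENNReal NNReal
open Pool.Agent.H82.KL

theorem realmid (B c0 D m P p : ℝ) (hc0 : 0 < c0) (hB : c0 ≤ B) (hD : 0 < D) (hm : 0 < m)
    (hPp : P ≤ p) :
    (B * 2 * m) ^ (P - 2) * m ^ 2 * (B / D) ^ (-(p - 2)) ≤
      2 ^ (P - 2) * c0 ^ (P - p) * m ^ P * D ^ (p - 2) := by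
  have hB0 : 0 < B := hc0.trans_le hB
  have e1 : (B * 2 * m) ^ (P - 2) = B ^ (P - 2) * 2 ^ (P - 2) * m ^ (P - 2) := by
    rw [Real.mul_rpow (by positivity) hm.le, Real.mul_rpow hB0.le (by norm_num)]
  have e2 : m ^ (P - 2) * m ^ 2 = m ^ P := by
    rw [← Real.rpow_natCast, ← Real.rpow_add hm]
    congr 1
    push_cast
    ring
  have e3 : (B / D) ^ (-(p - 2)) = B ^ (-(p - 2)) * D ^ (p - 2) := by
    rw [Real.div_rpow hB0.le hD.le, Real.rpow_neg hD.le, div_inv_eq_mul]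
  have e4 : B ^ (P - 2) * B ^ (-(p - 2)) = B ^ (P - p) := by
    rw [← Real.rpow_add hB0]
    congr 1
    ring
  have e5 : B ^ (P - p) ≤ c0 ^ (P - p) :=
    Real.rpow_le_rpow_of_nonpos hc0 hB (by linarith)
  calc (B * 2 * m) ^ (P - 2) * m ^ 2 * (B / D) ^ (-(p - 2))
      = 2 ^ (P - 2) * (B ^ (P - 2) * B ^ (-(p - 2))) * (m ^ (P - 2) * m ^ 2) * D ^ (p - 2) := by
        rw [e1, e3]; ring
    _ = 2 ^ (P - 2) * B ^ (P - p) * m ^ P * D ^ (p - 2) := by rw [e2, e4]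
    _ ≤ 2 ^ (P - 2) * c0 ^ (P - p) * m ^ P * D ^ (p - 2) := by gcongr

theorem two_pow_ge (A : ℝ) (hA : 0 ≤ A) : 2 * A ≤ (2 : ℝ) ^ (4 * A) := by
  rw [Real.rpow_def_of_pos (by norm_num)]
  have h1 := Real.add_one_le_exp (Real.log 2 * (4 * A))
  have h2 : (1 : ℝ) / 2 ≤ Real.log 2 := by
    have := Real.log_two_gt_d9
    linarith
  have h3 : 1 / 2 * (4 * A) ≤ Real.log 2 * (4 * A) :=
    mul_le_mul_of_nonneg_right h2 (by linarith)
  linarith

/-- the parameters -/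
theorem params (s c0 Q ε : ℝ) (hs : 0 ≤ s) (hc0 : 0 < c0) (hc1 : c0 ≤ 1) (hQ : 0 < Q)
    (hε : 0 < ε) : ∃ K L : ℝ, 0 ≤ K ∧ 0 < L ∧ ∀ R : ℝ, 1 ≤ R → ∃ n : ℕ, 1 ≤ n ∧
      R ^ s / c0 ≤ 2 ^ n ∧ c0 * 2 ^ n * (2 * n) ≤ (2 * R) ^ L ∧ ((2 * n : ℝ)) ^ Q ≤ K * R ^ ε := by
  set δ : ℝ := ε / (Q * (s + 1)) with hδ
  have hδ0 : 0 < δ := by positivity
  set A : ℝ := 4 / δ * (2 / c0) ^ δ with hA
  have hA0 : 0 < A := by positivity
  refine ⟨A ^ Q, s + s * δ + 4 * A, by positivity, by positivity, ?_⟩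
  intro R hR
  have hR0 : 0 < R := by linarith
  have hRs : 1 ≤ R ^ s := Real.one_le_rpow hR hs
  have hx1 : 1 ≤ R ^ s / c0 := by
    rw [le_div_iff₀ hc0]; linarith
  obtain ⟨n₀, h1, h2⟩ := exists_nat_pow_near hx1 (by norm_num : (1 : ℝ) < 2)
  refine ⟨n₀ + 1, by omega, h2.le, ?_⟩
  have h3 : (2 : ℝ) ^ (n₀ + 1) ≤ 2 * (R ^ s / c0) := by
    rw [pow_succ]; linarith
  have hn : (2 * ((n₀ + 1 : ℕ) : ℝ)) ≤ A * R ^ (s * δ) := by
    have h4 : ((n₀ + 1 : ℕ) : ℝ) * Real.log 2 ≤ Real.log (2 * (R ^ s / c0)) := by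
      rw [← Real.log_pow]
      exact Real.log_le_log (by positivity) h3
    have h5 := Real.log_le_rpow_div (x := 2 * (R ^ s / c0)) (by positivity) hδ0
    have h6 : (1 : ℝ) / 2 ≤ Real.log 2 := by
      have := Real.log_two_gt_d9
      linarith
    have h7 : ((n₀ + 1 : ℕ) : ℝ) * (1 / 2) ≤ ((n₀ + 1 : ℕ) : ℝ) * Real.log 2 :=
      mul_le_mul_of_nonneg_left h6 (by positivity)
    have h8 : (2 * (R ^ s / c0)) ^ δ = (2 / c0) ^ δ * R ^ (s * δ) := by
      have : 2 * (R ^ s / c0) = 2 / c0 * R ^ s := by ring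
      rw [this, Real.mul_rpow (by positivity) (by positivity), ← Real.rpow_mul hR0.le]
    rw [h8] at h5
    have h9 : A * R ^ (s * δ) = 4 * ((2 / c0) ^ δ * R ^ (s * δ) / δ) := by
      rw [hA]; field_simp
    rw [h9]
    linarith
  have hn0 : (0 : ℝ) < 2 * ((n₀ + 1 : ℕ) : ℝ) := by positivity
  constructor
  · calc c0 * 2 ^ (n₀ + 1) * (2 * ((n₀ + 1 : ℕ) : ℝ))
        ≤ (2 * R ^ s) * (A * R ^ (s * δ)) := by
          refine mul_le_mul ?_ hn hn0.le (by positivity)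
          calc c0 * 2 ^ (n₀ + 1) ≤ c0 * (2 * (R ^ s / c0)) :=
                mul_le_mul_of_nonneg_left h3 hc0.le
            _ = 2 * R ^ s := by field_simp
      _ = 2 * A * R ^ (s + s * δ) := by rw [Real.rpow_add hR0]; ring
      _ ≤ (2 : ℝ) ^ (4 * A) * R ^ (s + s * δ) :=
          mul_le_mul_of_nonneg_right (two_pow_ge A hA0.le) (by positivity)
      _ ≤ (2 : ℝ) ^ (s + s * δ + 4 * A) * R ^ (s + s * δ + 4 * A) := by
          have g1 : (2 : ℝ) ^ (4 * A) ≤ (2 : ℝ) ^ (s + s * δ + 4 * A) :=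
            Real.rpow_le_rpow_of_exponent_le (by norm_num) (by
              have : 0 ≤ s * δ := by positivity
              linarith)
          have g2 : R ^ (s + s * δ) ≤ R ^ (s + s * δ + 4 * A) :=
            Real.rpow_le_rpow_of_exponent_le hR (by linarith)
          exact mul_le_mul g1 g2 (by positivity) (by positivity)
      _ = (2 * R) ^ (s + s * δ + 4 * A) := by rw [Real.mul_rpow (by norm_num) hR0.le]
  · calc (2 * ((n₀ + 1 : ℕ) : ℝ)) ^ Q ≤ (A * R ^ (s * δ)) ^ Q :=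
          Real.rpow_le_rpow hn0.le hn hQ.le
      _ = A ^ Q * R ^ (s * δ * Q) := by
          rw [Real.mul_rpow hA0.le (by positivity), ← Real.rpow_mul hR0.le]
      _ ≤ A ^ Q * R ^ ε := by
          refine mul_le_mul_of_nonneg_left ?_ (by positivity)
          refine Real.rpow_le_rpow_of_exponent_le hR ?_
          have : s * δ * Q = ε * (s / (s + 1)) := by
            rw [hδ]; field_simp
          rw [this]
          have h10 : s / (s + 1) ≤ 1 := by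
            rw [div_le_one (by linarith)]; linarith
          nlinarith

/-- LEV: the estimate at frequency one and time `R` -/
theorem lev_main (h1 : T_GLB) (h2 : T_SUPB) (h3 : T_L2P) (h4 : T_GRAM) : T_CORE := by
  classical
  intro d k p ε a hd hk hPp hε ha hT
  have hk0 : 0 < k := by omega
  have hkR : (2 : ℝ) ≤ k := by exact_mod_cast hk
  have hdR : (3 : ℝ) ≤ d := by exact_mod_cast hd
  set P : ℝ := Pk d k with hP
  have hP2 : 2 < P := by
    rw [hP]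
    unfold Pk
    have h5 : 0 < ((k : ℝ) - 1) * ((d : ℝ) - 3) + 2 := by
      have : 0 ≤ ((k : ℝ) - 1) * ((d : ℝ) - 3) := mul_nonneg (by linarith) (by linarith)
      linarith
    have : 0 < 2 * ((d : ℝ) - 1) / (((k : ℝ) - 1) * ((d : ℝ) - 3) + 2) :=
      div_pos (by linarith) h5
    linarith
  have hp2 : 2 < p := by linarith
  set L0 : ℝ := ((d : ℝ) + 2) / (P - 2) with hL0
  have hL00 : 0 < L0 := div_pos (by linarith) (by linarith)
  set s : ℝ := L0 + ((d : ℝ) - 1) / 2 with hs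
  have hs0 : 0 ≤ s := by rw [hs]; linarith
  -- the constants
  have hS := fun j => h2 d 0 (a j) (by omega) (ha j)
  choose C1' hC1' hS' using hS
  set C1 : ℝ := ∑ j, C1' j with hC1
  have hC10 : 0 ≤ C1 := Finset.sum_nonneg fun j _ => hC1' j
  have hL := fun j => h3 d (a j) (by omega) (ha j)
  choose C2' hL' using hL
  set C2 : ℝ≥0 := ∑ j, C2' j with hC2
  set c0 : ℝ := 1 / (4 * (C1 + 1)) with hc0
  have hc00 : 0 < c0 := by positivity
  have hc01 : c0 ≤ 1 := by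
    rw [hc0, div_le_one (by positivity)]; linarith
  have hc04 : C1 * c0 ≤ 1 / 4 := by
    rw [hc0, mul_one_div, div_le_iff₀ (by positivity)]; linarith
  obtain ⟨K1, L, hK1, hLpos, hpar⟩ := params s c0 (P + k) (ε / 2) hs0 hc00 hc01 (by linarith)
    (by linarith)
  obtain ⟨C3, hC3⟩ := h1 d k L (ε / 2) a hd hk hLpos (by linarith) ha hT
  obtain ⟨K, hK0, hK⟩ := sum_hi p hp2
  set Vr : ℝ := 2 ^ p * 2 ^ (P - 2) * c0 ^ (P - p) with hVr
  have hVr0 : 0 ≤ Vr := by positivity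
  set Cs : ℝ := (C2 : ℝ) * (2 ^ p * 16) * K + (C3 : ℝ) * Vr * K1 with hCs
  have hCs0 : 0 ≤ Cs := by positivity
  refine ⟨((Fintype.card (ZMod 2 × (Fin d → ZMod 2)) : ℕ) : ℝ≥0) * 2 * Cs.toNNReal, ?_⟩
  intro R f hR hf
  have hR0 : 0 < R := by linarith
  obtain ⟨n, hn, hn1, hn2, hn3⟩ := hpar R hR
  set D : ℝ := R ^ (((d : ℝ) - 1) / 2) with hD
  have hD0 : 0 < D := by positivity
  have hn0 : (0 : ℝ) < n := by
    have : 0 < n := hn
    exact_mod_cast this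
  set E : ℝ := R ^ (((d : ℝ) - 1) * (p / 2 - 1) + ε) with hE
  have hE1 : 1 ≤ E := by
    refine Real.one_le_rpow hR ?_
    have : 0 ≤ ((d : ℝ) - 1) * (p / 2 - 1) := mul_nonneg (by linarith) (by linarith)
    linarith
  have hsup : ∀ (N : ℝ) (g : EE d → ℂ) (z : EE d × ℝ) (j : Fin k), R ≤ z.2 → z.2 ≤ 2 * R →
      Measurable g → (∀ y, ‖g y‖ ≤ N) → ‖W (a j) g z‖ ≤ C1 * N * D := by
    intro N g z j hz1 hz2 hg hN
    have hN0 : 0 ≤ N := (norm_nonneg _).trans (hN 0)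
    refine le_trans (hS' j R N g z hR hz1 hz2 hg hN).1 ?_
    have : C1' j ≤ C1 := Finset.single_le_sum (fun j _ => hC1' j) (Finset.mem_univ j)
    gcongr
  have hl2 : ∀ (g : EE d → ℂ) (Y : Finset (EE d × ℝ)) (j : Fin k), Measurable g → Sep Y →
      (∀ z ∈ Y, R ≤ z.2 ∧ z.2 ≤ 2 * R) →
      ∑ z ∈ Y, ‖W (a j) g z‖ₑ ^ 2 ≤
        C2 * ENNReal.ofReal (R ^ ((d : ℝ) + 2)) * ∫⁻ y, ‖g y‖ₑ ^ 2 := by
    intro g Y j hg hY hYz
    refine le_trans (hL' j R g Y hR hg hY hYz) ?_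
    have h5 : C2' j ≤ C2 := Finset.single_le_sum (fun j _ => zero_le) (Finset.mem_univ j)
    have h6 : (C2' j : ℝ≥0∞) ≤ C2 := by exact_mod_cast h5
    gcongr
  -- the discrete estimate
  have hdisc : ∀ Y : Finset (EE d × ℝ), Sep Y → (∀ z ∈ Y, R ≤ z.2 ∧ z.2 ≤ 2 * R) →
      ∑ z ∈ Y, (⨅ j, ‖W (a j) (f j) z‖ₑ) ^ p ≤
        ENNReal.ofReal (Cs * E) * ∑ j, ∫⁻ y, ‖f j y‖ₑ ^ p := by
    intro Y hY hYz
    refine le_trans (disc h4 d k n hk0 hn L (ε / 2) a ha C1 C2 C3 R hR hsup hl2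
      (fun h N g Y' hh hg hN hY' hz hNL => hC3 R h N g Y' hR hh hg hN hY' hz hNL)
      c0 hc00 hc04 hn2 p hp2 K hK f hf Y hY hYz) ?_
    rw [← hD, ← hP]
    have hlow : ∀ i : ℕ, c0 ≤ c0 * 2 ^ i := fun i =>
      le_mul_of_one_le_right hc00.le (one_le_pow₀ (by norm_num))
    -- high part
    have hhigh : R ^ ((d : ℝ) + 2) * (2 ^ p * 16 * (K * (c0 * 2 ^ n / D) ^ (-(p - 2)))) ≤
        2 ^ p * 16 * K * E := by
      have g1 : R ^ L0 ≤ c0 * 2 ^ n / D := by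
        rw [le_div_iff₀ hD0, hD, ← Real.rpow_add hR0, ← hs]
        rw [div_le_iff₀ hc00] at hn1
        linarith
      have g2 : (c0 * 2 ^ n / D) ^ (-(p - 2)) ≤ (R ^ L0) ^ (-(p - 2)) :=
        Real.rpow_le_rpow_of_nonpos (by positivity) g1 (by linarith)
      have g3 : R ^ ((d : ℝ) + 2) * (R ^ L0) ^ (-(p - 2)) ≤ 1 := by
        rw [← Real.rpow_mul hR0.le, ← Real.rpow_add hR0]
        refine Real.rpow_le_one_of_one_le_of_nonpos hR ?_
        have g4 : L0 * (P - 2) = (d : ℝ) + 2 := by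
          rw [hL0, div_mul_cancel₀ _ (sub_pos.2 hP2).ne']
        have g5 : L0 * (P - 2) ≤ L0 * (p - 2) :=
          mul_le_mul_of_nonneg_left (by linarith) hL00.le
        have g6 : (d : ℝ) + 2 + L0 * (-(p - 2)) = (d : ℝ) + 2 - L0 * (p - 2) := by ring
        rw [g6]
        linarith
      calc R ^ ((d : ℝ) + 2) * (2 ^ p * 16 * (K * (c0 * 2 ^ n / D) ^ (-(p - 2))))
          ≤ R ^ ((d : ℝ) + 2) * (2 ^ p * 16 * (K * (R ^ L0) ^ (-(p - 2)))) := by gcongr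
        _ = 2 ^ p * 16 * K * (R ^ ((d : ℝ) + 2) * (R ^ L0) ^ (-(p - 2))) := by ring
        _ ≤ 2 ^ p * 16 * K * E := by gcongr; linarith
    -- middle part
    have hmiddle : ∀ i : ℕ, R ^ (ε / 2) * (2 ^ p * ((c0 * 2 ^ i * 2 * (2 * n)) ^ (P - 2) *
        (2 * n) ^ 2) * (c0 * 2 ^ i / D) ^ (-(p - 2))) ≤
        R ^ (ε / 2) * (Vr * ((2 * n) ^ P * D ^ (p - 2))) := by
      intro i
      have g1 := realmid (c0 * 2 ^ i) c0 D (2 * n) P p hc00 (hlow i) hD0 (by positivity) hPp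
      have g2 : 2 ^ p * ((c0 * 2 ^ i * 2 * (2 * n)) ^ (P - 2) * (2 * n) ^ 2) *
          (c0 * 2 ^ i / D) ^ (-(p - 2)) = 2 ^ p * ((c0 * 2 ^ i * 2 * (2 * n)) ^ (P - 2) *
          (2 * n) ^ 2 * (c0 * 2 ^ i / D) ^ (-(p - 2))) := by ring
      rw [g2]
      refine mul_le_mul_of_nonneg_left ?_ (by positivity)
      calc _ ≤ 2 ^ p * (2 ^ (P - 2) * c0 ^ (P - p) * (2 * n) ^ P * D ^ (p - 2)) :=
            mul_le_mul_of_nonneg_left g1 (by positivity)
        _ = _ := by rw [hVr]; ring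
    have hcount : (n : ℝ) ^ k * (R ^ (ε / 2) * (Vr * ((2 * n) ^ P * D ^ (p - 2)))) ≤
        Vr * K1 * E := by
      have g1 : (n : ℝ) ^ k * (2 * n) ^ P ≤ (2 * (n : ℝ)) ^ (P + k) := by
        rw [Real.rpow_add (by positivity), Real.rpow_natCast, mul_comm]
        have : (n : ℝ) ^ k ≤ (2 * n) ^ k := pow_le_pow_left₀ hn0.le (by linarith) k
        gcongr
      have g2 : D ^ (p - 2) = R ^ (((d : ℝ) - 1) * (p / 2 - 1)) := by
        rw [hD, ← Real.rpow_mul hR0.le]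
        congr 1
        ring
      have g3 : R ^ (ε / 2) * R ^ (ε / 2) * R ^ (((d : ℝ) - 1) * (p / 2 - 1)) = E := by
        rw [hE, ← Real.rpow_add hR0, ← Real.rpow_add hR0]
        congr 1
        ring
      calc (n : ℝ) ^ k * (R ^ (ε / 2) * (Vr * ((2 * n) ^ P * D ^ (p - 2))))
          = Vr * ((n : ℝ) ^ k * (2 * n) ^ P) * (R ^ (ε / 2) * D ^ (p - 2)) := by ring
        _ ≤ Vr * (K1 * R ^ (ε / 2)) * (R ^ (ε / 2) * D ^ (p - 2)) := by
            refine mul_le_mul_of_nonneg_right ?_ (by positivity)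
            exact mul_le_mul_of_nonneg_left (g1.trans hn3) hVr0
        _ = Vr * K1 * (R ^ (ε / 2) * R ^ (ε / 2) * R ^ (((d : ℝ) - 1) * (p / 2 - 1))) := by
            rw [g2]; ring
        _ = Vr * K1 * E := by rw [g3]
    have hsplit : ENNReal.ofReal (Cs * E) * ∑ j, ∫⁻ y, ‖f j y‖ₑ ^ p =
        (∑ j, ENNReal.ofReal ((C2 : ℝ) * (2 ^ p * 16 * K * E)) * ∫⁻ y, ‖f j y‖ₑ ^ p) +
        ENNReal.ofReal ((C3 : ℝ) * (Vr * K1 * E)) * ∑ j, ∫⁻ y, ‖f j y‖ₑ ^ p := by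
      rw [← Finset.mul_sum, ← add_mul, ← ENNReal.ofReal_add (by positivity) (by positivity)]
      congr 2
      rw [hCs]
      ring
    rw [hsplit]
    refine add_le_add ?_ ?_
    · refine Finset.sum_le_sum fun j _ => ?_
      calc (C2 : ℝ≥0∞) * ENNReal.ofReal (R ^ ((d : ℝ) + 2)) * (ENNReal.ofReal (2 ^ p * 16) *
            (ENNReal.ofReal (K * (c0 * 2 ^ n / D) ^ (-(p - 2))) * ∫⁻ y, ‖f j y‖ₑ ^ p))
          = C2 * ENNReal.ofReal (R ^ ((d : ℝ) + 2) * (2 ^ p * 16 *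
            (K * (c0 * 2 ^ n / D) ^ (-(p - 2))))) * ∫⁻ y, ‖f j y‖ₑ ^ p := by
            rw [ENNReal.ofReal_mul (p := R ^ ((d : ℝ) + 2)) (by positivity),
              ENNReal.ofReal_mul (p := 2 ^ p * 16) (by positivity)]
            ring
        _ ≤ C2 * ENNReal.ofReal (2 ^ p * 16 * K * E) * ∫⁻ y, ‖f j y‖ₑ ^ p := by
            gcongr
        _ = ENNReal.ofReal ((C2 : ℝ) * (2 ^ p * 16 * K * E)) * ∫⁻ y, ‖f j y‖ₑ ^ p := by
            rw [ENNReal.ofReal_mul (p := (C2 : ℝ)) C2.coe_nonneg, ENNReal.ofReal_coe_nnreal]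
    · calc ∑ ι : Fin k → Fin n, C3 * ENNReal.ofReal (R ^ (ε / 2)) * ∑ j,
            ENNReal.ofReal (2 ^ p * ((c0 * 2 ^ (ι j : ℕ) * 2 * (2 * n)) ^ (P - 2) *
              (2 * n) ^ 2)) *
            (ENNReal.ofReal ((c0 * 2 ^ (ι j : ℕ) / D) ^ (-(p - 2))) * ∫⁻ y, ‖f j y‖ₑ ^ p)
          ≤ ∑ _ι : Fin k → Fin n, C3 * ∑ j,
            ENNReal.ofReal (R ^ (ε / 2) * (Vr * ((2 * n) ^ P * D ^ (p - 2)))) *
              ∫⁻ y, ‖f j y‖ₑ ^ p := by
            refine Finset.sum_le_sum fun ι _ => ?_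
            rw [mul_assoc]
            refine mul_le_mul_right ?_ _
            rw [Finset.mul_sum]
            refine Finset.sum_le_sum fun j _ => ?_
            calc _ = ENNReal.ofReal (R ^ (ε / 2) * (2 ^ p * ((c0 * 2 ^ (ι j : ℕ) * 2 *
                  (2 * n)) ^ (P - 2) * (2 * n) ^ 2) * (c0 * 2 ^ (ι j : ℕ) / D) ^ (-(p - 2)))) *
                  ∫⁻ y, ‖f j y‖ₑ ^ p := by
                  rw [ENNReal.ofReal_mul (p := R ^ (ε / 2)) (by positivity),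
                    ENNReal.ofReal_mul (q := (c0 * 2 ^ (ι j : ℕ) / D) ^ (-(p - 2)))
                      (by positivity)]
                  ring
              _ ≤ _ := mul_le_mul_left (ENNReal.ofReal_le_ofReal (hmiddle _)) _
        _ = C3 * ENNReal.ofReal ((n : ℝ) ^ k * (R ^ (ε / 2) * (Vr * ((2 * n) ^ P *
              D ^ (p - 2))))) * ∑ j, ∫⁻ y, ‖f j y‖ₑ ^ p := by
            rw [Finset.sum_const, Finset.card_univ, Fintype.card_fun, Fintype.card_fin,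
              Fintype.card_fin, nsmul_eq_mul, ← Finset.mul_sum,
              ENNReal.ofReal_mul (p := (n : ℝ) ^ k) (by positivity),
              ENNReal.ofReal_pow hn0.le, ENNReal.ofReal_natCast]
            push_cast
            ring
        _ ≤ C3 * ENNReal.ofReal (Vr * K1 * E) * ∑ j, ∫⁻ y, ‖f j y‖ₑ ^ p := by
            gcongr
        _ = _ := by
            rw [ENNReal.ofReal_mul (p := (C3 : ℝ)) C3.coe_nonneg, ENNReal.ofReal_coe_nnreal]
  -- the bound for the function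
  obtain ⟨hm0, N0, hN0⟩ := hf ⟨0, hk0⟩
  have hB : ∀ z : EE d × ℝ, R ≤ z.2 → z.2 ≤ 2 * R →
      (⨅ j, ‖W (a j) (f j) z‖ₑ) ^ p ≤ (ENNReal.ofReal (C1 * N0 * D)) ^ p := by
    intro z hz1 hz2
    refine ENNReal.rpow_le_rpow (le_trans (iInf_le _ ⟨0, hk0⟩) ?_) (by linarith)
    rw [← ofReal_norm]
    exact ENNReal.ofReal_le_ofReal (hsup N0 (f ⟨0, hk0⟩) z ⟨0, hk0⟩ hz1 hz2 hm0 hN0)
  have hfin := cells R (fun z : EE d × ℝ => (⨅ j, ‖W (a j) (f j) z‖ₑ) ^ p)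
    ((ENNReal.ofReal (C1 * N0 * D)) ^ p)
    (ENNReal.rpow_ne_top_of_nonneg (by linarith) ENNReal.ofReal_ne_top) hB _ hdisc
  refine le_trans hfin (le_of_eq ?_)
  rw [ENNReal.ofReal_mul hCs0]
  push_cast
  rw [ENNReal.ofReal]
  ring

end Pool.Agent.H48.KL
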