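import Pool.Agent.H82.KL.Targets

/-!
Multilinear local smoothing, row LEV, second part: truncations, sums over dyadic levels.
-/

set_option autoImplicit false

namespace Pool.Agent.H48.KL

open MeasureTheory Set
open scoped ENNReal NNReal
open Pool.Agent.H82.KL

/-- truncation -/
noncomputable def lo {d : ℕ} (τ : ℝ) (f : EE d → ℂ) : EE d → ℂ := fun y =>
  if ‖f y‖ < τ then f y else 0

/-- the part with `τ ≤ |f| < τ'` -/
noncomputable def mid {d : ℕ} (τ τ' : ℝ) (f : EE d → ℂ) : EE d → ℂ := fun y =>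
  if τ ≤ ‖f y‖ ∧ ‖f y‖ < τ' then f y else 0

/-- the part with `τ ≤ |f|` -/
noncomputable def hi {d : ℕ} (τ : ℝ) (f : EE d → ℂ) : EE d → ℂ := fun y =>
  if τ ≤ ‖f y‖ then f y else 0

theorem lo_meas {d : ℕ} (τ : ℝ) {f : EE d → ℂ} (hf : Measurable f) : Measurable (lo τ f) :=
  Measurable.ite (measurableSet_lt hf.norm measurable_const) hf measurable_const

theorem mid_meas {d : ℕ} (τ τ' : ℝ) {f : EE d → ℂ} (hf : Measurable f) :
    Measurable (mid τ τ' f) :=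
  Measurable.ite ((measurableSet_le measurable_const hf.norm).inter
    (measurableSet_lt hf.norm measurable_const)) hf measurable_const

theorem hi_meas {d : ℕ} (τ : ℝ) {f : EE d → ℂ} (hf : Measurable f) : Measurable (hi τ f) :=
  Measurable.ite (measurableSet_le measurable_const hf.norm) hf measurable_const

theorem lo_norm {d : ℕ} (τ : ℝ) (f : EE d → ℂ) (y : EE d) : ‖lo τ f y‖ ≤ ‖f y‖ := by
  unfold lo; split_ifs <;> simp

theorem lo_le {d : ℕ} (τ : ℝ) (hτ : 0 ≤ τ) (f : EE d → ℂ) (y : EE d) : ‖lo τ f y‖ ≤ τ := by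
  unfold lo; split_ifs with h
  · exact h.le
  · simpa using hτ

theorem mid_le {d : ℕ} (τ τ' : ℝ) (hτ : 0 ≤ τ') (f : EE d → ℂ) (y : EE d) :
    ‖mid τ τ' f y‖ ≤ τ' := by
  unfold mid; split_ifs with h
  · exact h.2.le
  · simpa using hτ

theorem W_sub (h4 : T_GRAM) {d : ℕ} (a : EE d → ℂ) (ha : Sym a) (f g : EE d → ℂ)
    (hf : Measurable f) (hg : Measurable g) (N : ℝ) (hfN : ∀ y, ‖f y‖ ≤ N)
    (hgN : ∀ y, ‖g y‖ ≤ N) (z : EE d × ℝ) :
    W a (fun y => f y - g y) z = W a f z - W a g z := by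
  have hU : Integrable (fun y : EE d => U a (z.1 - y, z.2)) := ((h4 d a ha).2.2.1 z).1
  have h1 : Integrable (fun y : EE d => U a (z.1 - y, z.2) * f y) :=
    hU.mul_bdd (c := N) hf.aestronglyMeasurable (Filter.Eventually.of_forall hfN)
  have h2 : Integrable (fun y : EE d => U a (z.1 - y, z.2) * g y) :=
    hU.mul_bdd (c := N) hg.aestronglyMeasurable (Filter.Eventually.of_forall hgN)
  unfold W
  rw [← integral_sub h1 h2]
  refine integral_congr_ae (Filter.Eventually.of_forall fun y => ?_)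
  beta_reduce
  ring

theorem W_mid (h4 : T_GRAM) {d : ℕ} (a : EE d → ℂ) (ha : Sym a) (f : EE d → ℂ)
    (hf : BM f) (τ τ' : ℝ) (h : τ ≤ τ') (z : EE d × ℝ) :
    W a (mid τ τ' f) z = W a (lo τ' f) z - W a (lo τ f) z := by
  obtain ⟨hm, N, hN⟩ := hf
  rw [← W_sub h4 a ha (lo τ' f) (lo τ f) (lo_meas _ hm) (lo_meas _ hm) N
    (fun y => (lo_norm _ _ y).trans (hN y)) (fun y => (lo_norm _ _ y).trans (hN y))]
  congr 1
  funext y
  unfold mid lo
  by_cases h1 : ‖f y‖ < τ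
  · have h2 : ‖f y‖ < τ' := h1.trans_le h
    simp [h1, h2, not_le.2 h1]
  · by_cases h2 : ‖f y‖ < τ'
    · simp [h1, h2, not_lt.1 h1]
    · simp [h1, h2]

theorem W_hi (h4 : T_GRAM) {d : ℕ} (a : EE d → ℂ) (ha : Sym a) (f : EE d → ℂ)
    (hf : BM f) (τ : ℝ) (z : EE d × ℝ) :
    W a (hi τ f) z = W a f z - W a (lo τ f) z := by
  obtain ⟨hm, N, hN⟩ := hf
  rw [← W_sub h4 a ha f (lo τ f) hm (lo_meas _ hm) N hN
    (fun y => (lo_norm _ _ y).trans (hN y))]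
  congr 1
  funext y
  unfold hi lo
  by_cases h1 : ‖f y‖ < τ
  · simp [h1, not_le.2 h1]
  · simp [h1, not_lt.1 h1]

/-- telescoping and pigeonhole -/
theorem pig (n : ℕ) (hn : 1 ≤ n) (h : ℝ) (hh : 0 < h) (w : ℕ → ℂ) (v : ℂ)
    (hv : h ≤ ‖v‖) (h0 : ‖w 0‖ ≤ h / 4) :
    h / 4 ≤ ‖v - w n‖ ∨ ∃ i < n, h / (2 * n) ≤ ‖w (i + 1) - w i‖ := by
  by_contra hcon
  push Not at hcon
  obtain ⟨h1, h2⟩ := hcon
  have h3 : ‖∑ i ∈ Finset.range n, (w (i + 1) - w i)‖ ≤ n * (h / (2 * n)) := by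
    calc ‖∑ i ∈ Finset.range n, (w (i + 1) - w i)‖
        ≤ ∑ i ∈ Finset.range n, ‖w (i + 1) - w i‖ := norm_sum_le _ _
      _ ≤ ∑ _i ∈ Finset.range n, h / (2 * n) :=
          Finset.sum_le_sum fun i hi => (h2 i (Finset.mem_range.1 hi)).le
      _ = n * (h / (2 * n)) := by rw [Finset.sum_const, Finset.card_range, nsmul_eq_mul]
  have hn0 : (n : ℝ) ≠ 0 := by
    have : 0 < n := hn
    exact_mod_cast this.ne'
  have h4 : (n : ℝ) * (h / (2 * n)) = h / 2 := by field_simp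
  rw [Finset.sum_range_sub, h4] at h3
  have h5 : v = (v - w n) + ((w n - w 0) + w 0) := by ring
  have h6 : ‖v‖ ≤ ‖v - w n‖ + (‖w n - w 0‖ + ‖w 0‖) := by
    calc ‖v‖ = ‖(v - w n) + ((w n - w 0) + w 0)‖ := by rw [← h5]
      _ ≤ ‖v - w n‖ + ‖(w n - w 0) + w 0‖ := norm_add_le _ _
      _ ≤ ‖v - w n‖ + (‖w n - w 0‖ + ‖w 0‖) := by gcongr; exact norm_add_le _ _
  linarith

/-- a geometric sum over dyadic levels -/
theorem geo (s : ℝ) (hs : 0 < s) : ∃ K : ℝ, 0 ≤ K ∧ ∀ (Λ : Finset ℤ) (x : ℝ), 0 < x →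
    (∀ l ∈ Λ, (2 : ℝ) ^ l ≤ x) → ∑ l ∈ Λ, ((2 : ℝ) ^ l) ^ s ≤ K * x ^ s := by
  have hr0 : (0 : ℝ) ≤ (2 : ℝ) ^ (-s) := by positivity
  have hr1 : (2 : ℝ) ^ (-s) < 1 := Real.rpow_lt_one_of_one_lt_of_neg (by norm_num) (by linarith)
  have hsum := summable_geometric_of_lt_one hr0 hr1
  refine ⟨∑' i : ℕ, ((2 : ℝ) ^ (-s)) ^ i, tsum_nonneg fun i => by positivity, ?_⟩
  intro Λ x hx hΛ
  have hm : ∀ l ∈ Λ, l ≤ Int.log 2 x := fun l hl =>
    (Int.zpow_le_iff_le_log (b := 2) (by norm_num) hx).1 (by exact_mod_cast hΛ l hl)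
  have hmx : (2 : ℝ) ^ (Int.log 2 x) ≤ x := by
    have := Int.zpow_log_le_self (b := 2) (by norm_num) hx
    exact_mod_cast this
  have hterm : ∀ l ∈ Λ, ((2 : ℝ) ^ l) ^ s ≤
      x ^ s * ((2 : ℝ) ^ (-s)) ^ (Int.log 2 x - l).toNat := by
    intro l hl
    have h1 : l = Int.log 2 x - ((Int.log 2 x - l).toNat : ℤ) := by
      have := hm l hl
      omega
    have h2 : ((2 : ℝ) ^ l) = (2 : ℝ) ^ (Int.log 2 x) * ((2 : ℝ) ^ (Int.log 2 x - l).toNat)⁻¹ := by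
      conv_lhs => rw [h1]
      rw [zpow_sub₀ (by norm_num), zpow_natCast, div_eq_mul_inv]
    have h3 : (((2 : ℝ) ^ (Int.log 2 x - l).toNat)⁻¹) ^ s =
        ((2 : ℝ) ^ (-s)) ^ (Int.log 2 x - l).toNat := by
      rw [Real.inv_rpow (by positivity), ← Real.rpow_natCast, ← Real.rpow_mul (by norm_num),
        ← Real.rpow_natCast, ← Real.rpow_mul (by norm_num), ← Real.rpow_neg (by norm_num)]
      congr 1
      ring
    rw [h2, Real.mul_rpow (by positivity) (by positivity), h3]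
    gcongr
  calc ∑ l ∈ Λ, ((2 : ℝ) ^ l) ^ s
      ≤ ∑ l ∈ Λ, x ^ s * ((2 : ℝ) ^ (-s)) ^ (Int.log 2 x - l).toNat :=
        Finset.sum_le_sum hterm
    _ = x ^ s * ∑ l ∈ Λ, ((2 : ℝ) ^ (-s)) ^ (Int.log 2 x - l).toNat := by rw [Finset.mul_sum]
    _ = x ^ s * ∑ i ∈ Λ.image (fun l => (Int.log 2 x - l).toNat), ((2 : ℝ) ^ (-s)) ^ i := by
        rw [Finset.sum_image]
        intro l hl l' hl' h
        have h1 := hm l hl
        have h2 := hm l' hl'
        have h3 : (Int.log 2 x - l).toNat = (Int.log 2 x - l').toNat := h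
        omega
    _ ≤ x ^ s * ∑' i : ℕ, ((2 : ℝ) ^ (-s)) ^ i := by
        gcongr
        exact hsum.sum_le_tsum _ fun i _ => by positivity
    _ = _ := mul_comm _ _

theorem enorm_rpow_split (x : ℂ) (p c : ℝ) (hc : 0 ≤ c) (hx : x ≠ 0) :
    ENNReal.ofReal (c * ‖x‖ ^ (p - 2)) * ‖x‖ₑ ^ 2 = ENNReal.ofReal c * ‖x‖ₑ ^ p := by
  have hx0 : 0 < ‖x‖ := norm_pos_iff.2 hx
  rw [← ofReal_norm, ← ENNReal.ofReal_pow (norm_nonneg _),
    ENNReal.ofReal_rpow_of_pos hx0, ← ENNReal.ofReal_mul (by positivity),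
    ← ENNReal.ofReal_mul hc]
  congr 1
  have h1 : ‖x‖ ^ (p - 2) * ‖x‖ ^ 2 = ‖x‖ ^ p := by
    rw [← Real.rpow_natCast, ← Real.rpow_add hx0]
    congr 1
    push_cast
    ring
  rw [mul_assoc, h1]

/-- the sum over the levels of the middle parts -/
theorem sum_mid {d : ℕ} (p μ : ℝ) (hp : 2 ≤ p) (hμ : 0 < μ) (f : EE d → ℂ) (hf : Measurable f)
    (Λ : Finset ℤ) :
    ∑ l ∈ Λ, ENNReal.ofReal (((2 : ℝ) ^ l) ^ (p - 2)) *
      ∫⁻ y, ‖mid (μ * (2 : ℝ) ^ l) (2 * μ * (2 : ℝ) ^ l) f y‖ₑ ^ 2 ≤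
    ENNReal.ofReal (μ ^ (-(p - 2))) * ∫⁻ y, ‖f y‖ₑ ^ p := by
  have hm : ∀ l : ℤ, Measurable
      (fun y => ‖mid (μ * (2 : ℝ) ^ l) (2 * μ * (2 : ℝ) ^ l) f y‖ₑ ^ 2) := fun l =>
    ((mid_meas _ _ hf).enorm.pow_const 2)
  calc ∑ l ∈ Λ, ENNReal.ofReal (((2 : ℝ) ^ l) ^ (p - 2)) *
      ∫⁻ y, ‖mid (μ * (2 : ℝ) ^ l) (2 * μ * (2 : ℝ) ^ l) f y‖ₑ ^ 2
      = ∑ l ∈ Λ, ∫⁻ y, ENNReal.ofReal (((2 : ℝ) ^ l) ^ (p - 2)) *
          ‖mid (μ * (2 : ℝ) ^ l) (2 * μ * (2 : ℝ) ^ l) f y‖ₑ ^ 2 := by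
        refine Finset.sum_congr rfl fun l _ => ?_
        rw [lintegral_const_mul _ (hm l)]
    _ = ∫⁻ y, ∑ l ∈ Λ, ENNReal.ofReal (((2 : ℝ) ^ l) ^ (p - 2)) *
          ‖mid (μ * (2 : ℝ) ^ l) (2 * μ * (2 : ℝ) ^ l) f y‖ₑ ^ 2 := by
        rw [lintegral_finsetSum _ fun l _ => (hm l).const_mul _]
    _ ≤ ∫⁻ y, ENNReal.ofReal (μ ^ (-(p - 2))) * ‖f y‖ₑ ^ p := by
        refine lintegral_mono fun y => ?_
        beta_reduce
        by_cases hex : ∃ l ∈ Λ, μ * (2 : ℝ) ^ l ≤ ‖f y‖ ∧ ‖f y‖ < 2 * μ * (2 : ℝ) ^ l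
        · obtain ⟨l₀, hl₀, h1, h2⟩ := hex
          rw [Finset.sum_eq_single l₀]
          · have hpos : 0 < μ * (2 : ℝ) ^ l₀ := by positivity
            have hfy : f y ≠ 0 := norm_pos_iff.1 (hpos.trans_le h1)
            have hmid : mid (μ * (2 : ℝ) ^ l₀) (2 * μ * (2 : ℝ) ^ l₀) f y = f y := by
              unfold mid; rw [if_pos ⟨h1, h2⟩]
            rw [hmid, ← enorm_rpow_split (f y) p (μ ^ (-(p - 2))) (by positivity) hfy]
            refine mul_le_mul_left (ENNReal.ofReal_le_ofReal ?_) _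
            rw [Real.rpow_neg hμ.le, ← Real.inv_rpow hμ.le, ← Real.mul_rpow (by positivity)
              (norm_nonneg _)]
            refine Real.rpow_le_rpow (by positivity) ?_ (by linarith)
            rw [inv_mul_eq_div, le_div_iff₀ hμ]
            linarith
          · intro l _ hne
            have hmid : mid (μ * (2 : ℝ) ^ l) (2 * μ * (2 : ℝ) ^ l) f y = 0 := by
              unfold mid
              rw [if_neg]
              rintro ⟨h3, h4⟩
              apply hne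
              have e1 : (2 : ℝ) ^ l < (2 : ℝ) ^ (l₀ + 1) := by
                rw [zpow_add₀ (by norm_num), zpow_one]
                have : μ * (2 : ℝ) ^ l < μ * ((2 : ℝ) ^ l₀ * 2) := by linarith
                exact lt_of_mul_lt_mul_left this hμ.le
              have e2 : (2 : ℝ) ^ l₀ < (2 : ℝ) ^ (l + 1) := by
                rw [zpow_add₀ (by norm_num), zpow_one]
                have : μ * (2 : ℝ) ^ l₀ < μ * ((2 : ℝ) ^ l * 2) := by linarith
                exact lt_of_mul_lt_mul_left this hμ.le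
              have e3 := (zpow_lt_zpow_iff_right₀ (by norm_num : (1 : ℝ) < 2)).1 e1
              have e4 := (zpow_lt_zpow_iff_right₀ (by norm_num : (1 : ℝ) < 2)).1 e2
              omega
            rw [hmid]
            simp
          · intro h; exact absurd hl₀ h
        · push Not at hex
          rw [Finset.sum_eq_zero]
          · exact zero_le
          · intro l hl
            have hmid : mid (μ * (2 : ℝ) ^ l) (2 * μ * (2 : ℝ) ^ l) f y = 0 := by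
              unfold mid
              rw [if_neg]
              rintro ⟨h3, h4⟩
              exact absurd h4 (not_lt.2 (hex l hl h3))
            rw [hmid]
            simp
    _ = ENNReal.ofReal (μ ^ (-(p - 2))) * ∫⁻ y, ‖f y‖ₑ ^ p := by
        rw [lintegral_const_mul _ (hf.enorm.pow_const p)]

/-- the sum over the levels of the high parts -/
theorem sum_hi (p : ℝ) (hp : 2 < p) : ∃ K : ℝ, 0 ≤ K ∧ ∀ (d : ℕ) (μ : ℝ), 0 < μ →
    ∀ (f : EE d → ℂ), Measurable f → ∀ (Λ : Finset ℤ),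
    ∑ l ∈ Λ, ENNReal.ofReal (((2 : ℝ) ^ l) ^ (p - 2)) *
      ∫⁻ y, ‖hi (μ * (2 : ℝ) ^ l) f y‖ₑ ^ 2 ≤
    ENNReal.ofReal (K * μ ^ (-(p - 2))) * ∫⁻ y, ‖f y‖ₑ ^ p := by
  obtain ⟨K, hK0, hK⟩ := geo (p - 2) (by linarith)
  refine ⟨K, hK0, ?_⟩
  intro d μ hμ f hf Λ
  have hm : ∀ l : ℤ, Measurable (fun y => ‖hi (μ * (2 : ℝ) ^ l) f y‖ₑ ^ 2) := fun l =>
    ((hi_meas _ hf).enorm.pow_const 2)
  calc ∑ l ∈ Λ, ENNReal.ofReal (((2 : ℝ) ^ l) ^ (p - 2)) *
      ∫⁻ y, ‖hi (μ * (2 : ℝ) ^ l) f y‖ₑ ^ 2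
      = ∑ l ∈ Λ, ∫⁻ y, ENNReal.ofReal (((2 : ℝ) ^ l) ^ (p - 2)) *
          ‖hi (μ * (2 : ℝ) ^ l) f y‖ₑ ^ 2 := by
        refine Finset.sum_congr rfl fun l _ => ?_
        rw [lintegral_const_mul _ (hm l)]
    _ = ∫⁻ y, ∑ l ∈ Λ, ENNReal.ofReal (((2 : ℝ) ^ l) ^ (p - 2)) *
          ‖hi (μ * (2 : ℝ) ^ l) f y‖ₑ ^ 2 := by
        rw [lintegral_finsetSum _ fun l _ => (hm l).const_mul _]
    _ ≤ ∫⁻ y, ENNReal.ofReal (K * μ ^ (-(p - 2))) * ‖f y‖ₑ ^ p := by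
        refine lintegral_mono fun y => ?_
        beta_reduce
        by_cases hfy : f y = 0
        · rw [Finset.sum_eq_zero]
          · exact zero_le
          · intro l _
            have : hi (μ * (2 : ℝ) ^ l) f y = 0 := by
              unfold hi
              split_ifs
              · exact hfy
              · rfl
            rw [this]
            simp
        · classical
          have e1 : ∑ l ∈ Λ, ENNReal.ofReal (((2 : ℝ) ^ l) ^ (p - 2)) *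
              ‖hi (μ * (2 : ℝ) ^ l) f y‖ₑ ^ 2 =
              ∑ l ∈ Λ.filter (fun l => μ * (2 : ℝ) ^ l ≤ ‖f y‖),
                ENNReal.ofReal (((2 : ℝ) ^ l) ^ (p - 2)) * ‖f y‖ₑ ^ 2 := by
            rw [Finset.sum_filter]
            refine Finset.sum_congr rfl fun l _ => ?_
            unfold hi
            split_ifs <;> simp
          rw [e1, ← Finset.sum_mul, ← ENNReal.ofReal_sum_of_nonneg (fun l _ => by positivity),
            ← enorm_rpow_split (f y) p (K * μ ^ (-(p - 2))) (by positivity) hfy]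
          refine mul_le_mul_left (ENNReal.ofReal_le_ofReal ?_) _
          have hpos : 0 < ‖f y‖ / μ := div_pos (norm_pos_iff.2 hfy) hμ
          refine le_trans (hK _ (‖f y‖ / μ) hpos ?_) ?_
          · intro l hl
            rw [le_div_iff₀ hμ, mul_comm]
            exact (Finset.mem_filter.1 hl).2
          · rw [Real.rpow_neg hμ.le, ← Real.inv_rpow hμ.le, mul_assoc,
              ← Real.mul_rpow (by positivity) (norm_nonneg _), inv_mul_eq_div]
    _ = ENNReal.ofReal (K * μ ^ (-(p - 2))) * ∫⁻ y, ‖f y‖ₑ ^ p := by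
        rw [lintegral_const_mul _ (hf.enorm.pow_const p)]

end Pool.Agent.H48.KL
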